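import Mathlib
import Pool.Agent.H69R3.Conf.Defs
import Pool.Agent.H69R3.Conf.Final3

set_option autoImplicit false

namespace Pool.Agent.Results.MP_9f67e3_gt.ConformalRigidity

open Pool.Agent.H69R3.Conf

/-- Let `F` be a smooth Finsler metric on an open set `U ⊆ ℝⁿ`, `σ` a smooth function on `U`, and
suppose that `e^σ F` has vanishing Landsberg curvature.
(1) If `F` is Berwald, then `e^σ F` is Berwald.
(2) If `n ≥ 2` and `F` has vanishing Landsberg curvature, then `F(x, ·)²` is a quadratic form at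
every point `x ∈ U` with `dσ(x) ≠ 0`. -/
theorem result {n : ℕ} {U : Set (Fin n → ℝ)} (hU : IsOpen U)
    {F : (Fin n → ℝ) → (Fin n → ℝ) → ℝ} (hF : IsFinsler U F)
    {σ : (Fin n → ℝ) → ℝ} (hσ : ContDiffOn ℝ ((⊤ : ℕ∞) : WithTop ℕ∞) σ U)
    {G G' : (Fin n → ℝ) → (Fin n → ℝ) → (Fin n → ℝ)}
    (hG : IsSpray U F G) (hG' : IsSpray U (conf σ F) G')
    (hL' : IsLandsberg U (conf σ F) G') :
    (IsBerwald U G → IsBerwald U G') ∧
    (2 ≤ n → IsLandsberg U F G → ∀ x ∈ U, fderiv ℝ σ x ≠ 0 →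
      ∃ Q : Matrix (Fin n) (Fin n) ℝ, ∀ y : Fin n → ℝ,
        F x y ^ 2 = ∑ i, ∑ j, Q i j * y i * y j) :=
  ⟨fun hB => H69Conf.berwald hU hF hσ hG hG' hB hL',
    fun hn hL _ hx hd => H69Conf.rigidity hn hU hF hσ hG hG' hL hL' hx hd⟩

end Pool.Agent.Results.MP_9f67e3_gt.ConformalRigidity
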